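import Pool.Agent.X165.PSV2

namespace Pool.Agent.Results.MP_73128c_co.ConsecutiveDegrees

open Pool.Agent.X165.PSV

/-- Structure of graphs with fewer card types than orbits. -/
theorem result {V : Type*} [Fintype V] [DecidableEq V] (G : SimpleGraph V)
    [DecidableRel G.Adj] :
    ((∀ x y, G.degree x ≠ G.degree y + 1) →
      (∀ u v, SameCard G u v → SameOrbit G u v) ∧ cardTypes G = autOrbits G) ∧
    (cardTypes G = 2 → autOrbits G ≠ 2 →
      ∃ d : ℕ, (∀ x, G.degree x = d ∨ G.degree x = d + 1) ∧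
        (∀ x y, SameCard G x y ↔ G.degree x = G.degree y) ∧
        (∃ x, G.degree x = d) ∧ (∃ x, G.degree x = d + 1) ∧
        ∀ x y, G.degree x = G.degree y → ∀ e, nd G x e = nd G y e) :=
  ⟨fun h => ⟨fun _ _ => sameOrbit_of_sameCard h, cardTypes_eq_autOrbits h⟩, two_types⟩

end Pool.Agent.Results.MP_73128c_co.ConsecutiveDegrees
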