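import Pool.Agent.X165.PSV1

namespace Pool.Agent.Results.MP_73128c_co.FourTypes

open Pool.Agent.X165.PSV

/-- There is a connected graph (on `9` vertices) with exactly `4` isomorphism types of cards whose
automorphism group has exactly `5` orbits on the vertices. -/
theorem result : ∃ G : SimpleGraph (Fin 9),
    G.Connected ∧ cardTypes G = 4 ∧ autOrbits G = 5 :=
  ⟨G9, connected9, cardTypes9, autOrbits9⟩

end Pool.Agent.Results.MP_73128c_co.FourTypes
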